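import Pool.Agent.Helper30.KC.GoalsI
import Pool.Agent.Helper85.KC.IN

/-!
# Project KI, packet SC: only one cluster
-/

set_option autoImplicit false

namespace Pool.Agent.Helper62.KI

open scoped Classical
open Finset
open Pool.Agent.Helper94.KC Pool.Agent.Helper30.KC

theorem foldr_sub {V : Type} (T : Finset (Finset V)) (L : List (Finset (Finset V)))
    (h : ∀ D ∈ L, D ⊆ T) : L.foldr symmDiff ∅ ⊆ T := by
  induction L with
  | nil => exact empty_subset _
  | cons D L ih =>
    rw [List.foldr_cons]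
    intro t ht
    rw [mem_symmDiff] at ht
    rcases ht with ht | ht
    · exact h D (by simp) ht.1
    · exact ih (fun D' hD' => h D' (List.mem_cons_of_mem _ hD')) ht.1

theorem pSC (BB : StmtBB) (UH : StmtUH) (MK : StmtMK) (IN : StmtIN) (EV : StmtEV) : StmtSC := by
  intro V _ T W ρ h x u hT hS hHD hEW h7 hx hu hxu huN
  obtain ⟨e1, -, -, -, -, -⟩ := EV V T hT
  obtain ⟨-, -, -, uh4⟩ := UH V T W hT hS
  obtain ⟨mk1, ⟨mk2, mk3⟩, mk4, -, mk6, mk7⟩ := MK V T W h hT hS h7
  -- the hub chain bounds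
  obtain ⟨L, hL, hLD⟩ := BB V T hT h (ρ + 1) (by
      have : 2 * (ρ + 1) + 2 = 2 * ρ + 4 := by ring
      rw [this]
      exact hEW) (mK T W h) mk7 mk4 (by
    intro e he v hv
    obtain ⟨x', u', rfl, -, -, -, hadj, hr⟩ := mk1 e he
    have h1 := hHD h x' hr
    rw [mem_insert, mem_singleton] at hv
    rcases hv with rfl | rfl
    · omega
    · have h2 := hT.conn.dist_triangle (u := h) (v := x') (w := v)
      have h3 : (sk T).dist x' v = 1 := SimpleGraph.dist_eq_one_iff_adj.2 hadj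
      omega)
  set S := L.foldr symmDiff ∅ with hSdef
  have hST : S ⊆ T := foldr_sub T L (fun D hD => by
    obtain ⟨_, _, _, _, _, hd⟩ := hLD D hD
    exact hd.sub)
  have hDbT : Db T W h ⊆ T := filter_subset _ _
  have hDaT : Da T W h ⊆ T := filter_subset _ _
  have hb : Bounds T (dW T W h) := by
    refine ⟨symmDiff (Db T W h) S, ?_, ?_⟩
    · intro t ht
      rw [mem_symmDiff] at ht
      rcases ht with ht | ht
      · exact hDbT ht.1
      · exact hST ht.1
    · rw [e1, hL, mk2, symmDiff_symmDiff_cancel_right]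
  have hWu : W ≠ univ := by
    rintro rfl
    exact hu (mem_univ u)
  obtain ⟨D', hD', hbd'⟩ := IN V T hT W hWu hS.cu (dW T W h) mk6 hb
  have hD'T : D' ⊆ T := fun t ht => (mem_filter.1 (hD' ht)).1
  have hD'W : ∀ t ∈ D', t ⊆ W := fun t ht => (mem_filter.1 (hD' ht)).2
  -- the set `F`
  set F := symmDiff (symmDiff D' (Da T W h)) (Db T W h) with hF
  have hmem : ∀ t, t ∈ F ↔ ¬ ((¬ (t ∈ D' ↔ t ∈ Da T W h)) ↔ t ∈ Db T W h) := by
    intro t
    rw [hF, mem_symmDiff, mem_symmDiff]
    tauto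
  have hFT : F ⊆ T := by
    intro t ht
    rw [hF, mem_symmDiff, mem_symmDiff] at ht
    rcases ht with ⟨ht | ht, -⟩ | ht
    · exact hD'T ht.1
    · exact hDaT ht.1
    · exact hDbT ht.1
  have hFb : ∀ y ∈ W, ∀ e ∈ bd T F, y ∉ e := by
    intro y hy e he hye
    have h1 : bd T F = symmDiff (bd T (Da T W h)) (mK T W h) := by
      rw [hF, e1, e1, hbd', mk2]
      ext s
      simp only [mem_symmDiff]
      tauto
    rw [h1] at he
    exact mk3 e he y hye hy
  have hDa_not : ∀ t ∈ Da T W h, (t ∩ W).card = 1 ∧ ∃ v ∈ t, v ∉ W ∧ v ∈ NK T h := fun t ht =>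
    (mem_filter.1 ht).2
  have hDb_not : ∀ t ∈ Db T W h, (t ∩ W).card = 2 ∧ ∃ v ∈ t, v ∉ W ∧ v ∈ NK T h := fun t ht =>
    (mem_filter.1 ht).2
  -- the first triangle
  obtain ⟨t0, ht0, hxt0, hut0⟩ := hxu.2
  have ht0F : t0 ∈ F := by
    have h1 : (t0 ∩ W).Nonempty := ⟨x, mem_inter.2 ⟨hxt0, hx⟩⟩
    have h2 : (t0 ∩ W).card ≤ 2 := by
      have h3 : t0 ∩ W ⊆ t0.erase u := by
        intro v hv
        rw [mem_inter] at hv
        rw [mem_erase]
        refine ⟨?_, hv.1⟩
        rintro rfl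
        exact hu hv.2
      have h4 := card_le_card h3
      rw [card_erase_of_mem hut0, hT.card t0 ht0] at h4
      exact h4
    have h3 : 0 < (t0 ∩ W).card := card_pos.2 h1
    have h4 : t0 ∉ D' := fun h5 => hu (hD'W t0 h5 hut0)
    rw [hmem]
    rcases (by omega : (t0 ∩ W).card = 1 ∨ (t0 ∩ W).card = 2) with h5 | h5
    · have h6 : t0 ∈ Da T W h := mem_filter.2 ⟨ht0, h5, u, hut0, hu, huN⟩
      have h7' : t0 ∉ Db T W h := fun h8 => by
        have := (hDb_not t0 h8).1
        omega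
      tauto
    · have h6 : t0 ∈ Db T W h := mem_filter.2 ⟨ht0, h5, u, hut0, hu, huN⟩
      have h7' : t0 ∉ Da T W h := fun h8 => by
        have := (hDa_not t0 h8).1
        omega
      tauto
  -- all vertices of `W`
  have key : ∀ y, (gr (edW T W)).Reachable x y → y ∈ W ∧ ∃ t ∈ F, y ∈ t := by
    intro y hr
    rw [SimpleGraph.reachable_iff_reflTransGen] at hr
    induction hr with
    | refl => exact ⟨hx, t0, ht0F, hxt0⟩
    | tail _ hpq ih =>
      rename_i p q _
      obtain ⟨hne, hm⟩ := hpq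
      unfold edW at hm
      rw [mem_filter] at hm
      obtain ⟨hm1, hm2⟩ := hm
      unfold ed at hm1
      rw [mem_filter] at hm1
      obtain ⟨-, -, s, hs, hss⟩ := hm1
      have hps : p ∈ s := hss (mem_insert_self p {q})
      have hqs : q ∈ s := hss (mem_insert_of_mem (mem_singleton_self q))
      have hqW : q ∈ W := hm2 (mem_insert_of_mem (mem_singleton_self q))
      obtain ⟨hpW, t, ht, hpt⟩ := ih
      exact ⟨hqW, s, Pool.Agent.Helper85.KC.around hT hFT p (hFb p hpW) ht hpt hs hps, hqs⟩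
  have all : ∀ t ∈ T, (t ∩ W).Nonempty → t ∈ F := by
    intro t ht hne
    obtain ⟨y, hy⟩ := hne
    rw [mem_inter] at hy
    obtain ⟨-, s, hs, hys⟩ := key y (hS.cw x hx y hy.2)
    exact Pool.Agent.Helper85.KC.around hT hFT y (hFb y hy.2) hs hys ht hy.1
  constructor
  · intro t ht hne v hv hvW
    have h1 := (hmem t).1 (all t ht hne)
    have h2 : t ∉ D' := fun h3 => hvW (hD'W t h3 hv)
    have h3 : t ∈ Da T W h ∨ t ∈ Db T W h := by tauto
    obtain ⟨u', hu't, hu'W, hu'N⟩ : ∃ u' ∈ t, u' ∉ W ∧ u' ∈ NK T h := by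
      rcases h3 with h3 | h3
      · exact (hDa_not t h3).2
      · exact (hDb_not t h3).2
    exact uh4 h t ht hne u' hu't v hv hu'W hvW hu'N
  · have h1 : D' = trW T W := by
      refine Subset.antisymm hD' fun t ht => ?_
      unfold trW at ht
      rw [mem_filter] at ht
      have h2 : (t ∩ W).Nonempty := by
        rw [inter_eq_left.2 ht.2]
        rw [← card_pos, hT.card t ht.1]
        norm_num
      have h3 := (hmem t).1 (all t ht.1 h2)
      have h4 : t ∉ Da T W h := fun h5 => by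
        obtain ⟨-, v, hv, hvW, -⟩ := hDa_not t h5
        exact hvW (ht.2 hv)
      have h5 : t ∉ Db T W h := fun h5 => by
        obtain ⟨-, v, hv, hvW, -⟩ := hDb_not t h5
        exact hvW (ht.2 hv)
      tauto
    rw [← h1, hbd']

end Pool.Agent.Helper62.KI
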